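import Mathlib

namespace Pool.Agent.H.MP_c5a4a7_gt

open Set Filter Topology Real MeasureTheory

abbrev E := EuclideanSpace ℝ (Fin 3)

noncomputable def tri (a : ℝ) : ℝ := 1 - 2 / π * arccos (cos (π * a))

theorem tri_cont : Continuous tri := by unfold tri; fun_prop

theorem tri_neg (a : ℝ) : tri (-a) = tri a := by simp [tri]

theorem tri_int (a : ℝ) (k : ℤ) : tri (a + 2 * k) = tri a := by
  have : π * (a + 2 * k) = π * a + k * (2 * π) := by ring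
  rw [tri, this, cos_add_int_mul_two_pi, tri]

theorem tri_one (a : ℝ) : tri (a + 1) = -tri a := by
  rw [tri, tri, mul_add, mul_one, cos_add_pi, arccos_neg]
  field_simp
  ring

theorem tri_eq {a : ℝ} (h0 : 0 ≤ a) (h1 : a ≤ 1) : tri a = 1 - 2 * a := by
  rw [tri, arccos_cos (by positivity) (by nlinarith [pi_pos])]
  field_simp

theorem tri_abs {a : ℝ} (h : |a| ≤ 1) : tri a = 1 - 2 * |a| := by
  rw [← tri_eq (abs_nonneg a) h]
  rcases abs_choice a with e | e <;> rw [e]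
  exact (tri_neg a).symm

theorem tri_inj {a b : ℝ} (h : tri a = tri b) : ∃ k : ℤ, b = a + 2 * k ∨ b = -a + 2 * k := by
  have h1 : arccos (cos (π * a)) = arccos (cos (π * b)) :=
    mul_left_cancel₀ (show 2 / π ≠ 0 by positivity) (by unfold tri at h; linarith)
  have h2 := congrArg cos h1
  rw [cos_arccos (neg_one_le_cos _) (cos_le_one _), cos_arccos (neg_one_le_cos _) (cos_le_one _)] at h2
  obtain ⟨k, hk⟩ := cos_eq_cos_iff.mp h2
  refine ⟨k, hk.imp (fun e => ?_) fun e => ?_⟩ <;> apply mul_left_cancel₀ pi_ne_zero <;> linarith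

theorem nform (a : ℝ) : ∃ (s : ℝ) (k : ℤ), 0 ≤ s ∧ s ≤ 1 ∧ (a = s + 2 * k ∨ a = -s + 2 * k) := by
  obtain ⟨n, hn, -⟩ := existsUnique_add_zsmul_mem_Ico (two_pos (α := ℝ)) a (-1)
  simp only [zsmul_eq_mul, mem_Ico] at hn
  refine ⟨|a + n * 2|, -n, abs_nonneg _, abs_le.mpr ⟨hn.1, by linarith [hn.2]⟩, ?_⟩
  rcases abs_choice (a + n * 2) with e | e <;> rw [e] <;> push_cast
  · left; ring
  · right; ring

theorem tri_bd (a : ℝ) : -1 ≤ tri a ∧ tri a ≤ 1 := by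
  obtain ⟨s, k, h0, h1, rfl | rfl⟩ := nform a <;> simp only [tri_int, tri_neg, tri_eq h0 h1] <;>
    constructor <;> linarith

def IsInt (a : ℝ) : Prop := ∃ k : ℤ, a = k

/-- local shape of the triangle wave -/
structure Loc (a : ℝ) (τ : ℝ → ℝ) : Prop where
  ev : ∀ᶠ h in 𝓝 (0 : ℝ), tri (a + h) = tri a + τ h
  sh : ∃ c : ℝ, c ^ 2 = 4 ∧ ((¬IsInt a ∧ ∀ h, τ h = c * h) ∨ (IsInt a ∧ ∀ h, τ h = c * |h|))

theorem loc (a : ℝ) : ∃ τ, Loc a τ := by
  have b : ∀ᶠ h in 𝓝 (0 : ℝ), |h| ≤ 1 :=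
    (continuous_abs.tendsto' 0 0 abs_zero).eventually (eventually_le_nhds one_pos)
  by_cases h : IsInt a
  · obtain ⟨k, rfl⟩ := h
    have z : tri 0 = 1 := by simp [tri]
    rcases Int.even_or_odd' k with ⟨m, rfl | rfl⟩
    · refine ⟨fun h => -2 * |h|, b.mono fun h hh => ?_, -2, by norm_num, .inr ⟨⟨_, rfl⟩, fun _ => rfl⟩⟩
      have e1 := tri_int h m
      have e2 := tri_int 0 m
      push_cast
      rw [add_comm, e1, ← zero_add (2 * (m : ℝ)), e2, z, tri_abs hh]; ring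
    · refine ⟨fun h => 2 * |h|, b.mono fun h hh => ?_, 2, by norm_num, .inr ⟨⟨_, rfl⟩, fun _ => rfl⟩⟩
      have e1 := tri_int h m
      have e2 := tri_int 0 m
      push_cast
      rw [show 2 * (m : ℝ) + 1 + h = h + 2 * m + 1 by ring, tri_one, e1, tri_one,
        ← zero_add (2 * (m : ℝ)), e2, z, tri_abs hh]; ring
  · obtain ⟨s, k, h0, h1, e⟩ := nform a
    have s0 : 0 < s := lt_of_le_of_ne h0 (by
      rintro rfl; exact h ⟨2 * k, by rcases e with e | e <;> simp [e]⟩)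
    have s1 : s < 1 := lt_of_le_of_ne h1 (by
      rintro rfl
      rcases e with e | e
      · exact h ⟨1 + 2 * k, by simp [e]⟩
      · exact h ⟨-1 + 2 * k, by simp [e]⟩)
    have c : ∀ᶠ h in 𝓝 (0 : ℝ), |h| ≤ min s (1 - s) :=
      (continuous_abs.tendsto' 0 0 abs_zero).eventually (eventually_le_nhds (by simp [s0, s1]))
    rcases e with rfl | rfl
    · refine ⟨fun h => -2 * h, c.mono fun h hh => ?_, -2, by norm_num, .inl ⟨h, fun _ => rfl⟩⟩
      obtain ⟨a1, a2⟩ := le_min_iff.mp hh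
      rw [abs_le] at a1 a2
      rw [add_right_comm, tri_int, tri_int, tri_eq h0 h1, tri_eq (by linarith) (by linarith)]; ring
    · refine ⟨fun h => 2 * h, c.mono fun h hh => ?_, 2, by norm_num, .inl ⟨h, fun _ => rfl⟩⟩
      obtain ⟨a1, a2⟩ := le_min_iff.mp hh
      rw [abs_le] at a1 a2
      rw [add_right_comm, tri_int, tri_int, tri_neg, tri_eq h0 h1, ← tri_neg,
        tri_eq (by linarith) (by linarith)]; ring

theorem Loc.hom {a : ℝ} {τ : ℝ → ℝ} (h : Loc a τ) {t : ℝ} (ht : 0 ≤ t) (x : ℝ) :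
    τ (t * x) = t * τ x := by
  obtain ⟨c, -, ⟨-, e⟩ | ⟨-, e⟩⟩ := h.sh <;> simp only [e, abs_mul, abs_of_nonneg ht] <;> ring

theorem Loc.sq {a : ℝ} {τ : ℝ → ℝ} (h : Loc a τ) (x : ℝ) : τ x ^ 2 = 4 * x ^ 2 := by
  obtain ⟨c, hc, ⟨-, e⟩ | ⟨-, e⟩⟩ := h.sh <;> simp only [e, mul_pow, sq_abs, hc]

theorem Loc.lip {a : ℝ} {τ : ℝ → ℝ} (h : Loc a τ) (x y : ℝ) : (τ x - τ y) ^ 2 ≤ 4 * (x - y) ^ 2 := by
  obtain ⟨c, hc, ⟨-, e⟩ | ⟨-, e⟩⟩ := h.sh <;> rw [e, e, ← mul_sub, mul_pow, hc]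
  have := sq_le_sq.mpr (abs_abs_sub_abs_le_abs_sub x y)
  linarith

theorem Loc.inj {a : ℝ} {τ : ℝ → ℝ} (h : Loc a τ) (ha : ¬IsInt a) {x y : ℝ} (e : τ x = τ y) :
    x = y := by
  obtain ⟨c, hc, ⟨-, e'⟩ | ⟨b, -⟩⟩ := h.sh
  · rw [e', e'] at e
    exact mul_left_cancel₀ (by rintro rfl; norm_num at hc) e
  · exact absurd b ha

theorem Loc.even {a : ℝ} {τ : ℝ → ℝ} (h : Loc a τ) (ha : IsInt a) (x : ℝ) : τ (-x) = τ x := by
  obtain ⟨c, hc, ⟨b, -⟩ | ⟨-, e⟩⟩ := h.sh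
  · exact absurd ha b
  · rw [e, e, abs_neg]

def T : Set E := {p | -1 ≤ p 0 + p 1 + p 2 ∧ -1 ≤ p 0 - p 1 - p 2 ∧ -1 ≤ -p 0 + p 1 - p 2 ∧
  -1 ≤ -p 0 - p 1 + p 2}
def S : Set E := {p | p ∈ T ∧ (-1 = p 0 + p 1 + p 2 ∨ -1 = p 0 - p 1 - p 2 ∨
  -1 = -p 0 + p 1 - p 2 ∨ -1 = -p 0 - p 1 + p 2)}
noncomputable def vv : Fin 4 → E := ![!₂[1, 1, 1], !₂[1, -1, -1], !₂[-1, 1, -1], !₂[-1, -1, 1]]

theorem ext3 {p q : E} (h0 : p 0 = q 0) (h1 : p 1 = q 1) (h2 : p 2 = q 2) : p = q := by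
  ext i; fin_cases i <;> assumption

theorem vv_ind : AffineIndependent ℝ vv := by
  rw [affineIndependent_iff_of_fintype]
  intro w h1 h2
  rw [Finset.weightedVSub_eq_linear_combination _ h1] at h2
  have a0 := congrArg (fun p : E => p 0) h2
  have a1 := congrArg (fun p : E => p 1) h2
  have a2 := congrArg (fun p : E => p 2) h2
  simp [Fin.sum_univ_four, vv] at h1 a0 a1 a2
  intro i
  fin_cases i <;> simp <;> linarith

theorem hull : convexHull ℝ (range vv) = T := by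
  apply Subset.antisymm
  · apply convexHull_min
    · rintro _ ⟨i, rfl⟩
      fin_cases i <;> simp [T, vv] <;> norm_num
    · rintro p ⟨p1, p2, p3, p4⟩ q ⟨q1, q2, q3, q4⟩ s t hs ht hst
      simp only [T, mem_setOf_eq, PiLp.add_apply, PiLp.smul_apply, smul_eq_mul]
      refine ⟨?_, ?_, ?_, ?_⟩ <;> nlinarith
  · rintro p ⟨p1, p2, p3, p4⟩
    refine mem_convexHull_of_exists_fintype ![(1 + p 0 + p 1 + p 2) / 4, (1 + p 0 - p 1 - p 2) / 4,
      (1 - p 0 + p 1 - p 2) / 4, (1 - p 0 - p 1 + p 2) / 4] vv (fun i => ?_) ?_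
      (fun i => mem_range_self i) ?_
    · fin_cases i <;> simp <;> linarith
    · simp [Fin.sum_univ_four]; ring
    · refine ext3 ?_ ?_ ?_ <;> simp [Fin.sum_univ_four, vv] <;> ring

theorem frontier_T : frontier T = S := by
  have c : IsClosed T := by
    refine IsClosed.and (isClosed_le ?_ ?_) (IsClosed.and (isClosed_le ?_ ?_)
      (IsClosed.and (isClosed_le ?_ ?_) (isClosed_le ?_ ?_))) <;> fun_prop
  rw [c.frontier_eq]
  ext p
  refine and_congr_right fun ⟨p1, p2, p3, p4⟩ => ⟨fun h => ?_, fun h hp => ?_⟩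
  · by_contra h'
    push Not at h'
    have o : IsOpen {p : E | -1 < p 0 + p 1 + p 2 ∧ -1 < p 0 - p 1 - p 2 ∧ -1 < -p 0 + p 1 - p 2 ∧
        -1 < -p 0 - p 1 + p 2} := by
      refine IsOpen.and (isOpen_lt ?_ ?_) (IsOpen.and (isOpen_lt ?_ ?_)
        (IsOpen.and (isOpen_lt ?_ ?_) (isOpen_lt ?_ ?_))) <;> fun_prop
    exact h (interior_maximal (s := T)
      (fun q hq => (⟨hq.1.le, hq.2.1.le, hq.2.2.1.le, hq.2.2.2.le⟩ : _ ∧ _ ∧ _ ∧ _)) o
      ⟨lt_of_le_of_ne p1 h'.1, lt_of_le_of_ne p2 h'.2.1, lt_of_le_of_ne p3 h'.2.2.1,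
        lt_of_le_of_ne p4 h'.2.2.2⟩)
  · have h1 : ∀ᶠ t : ℝ in 𝓝 1, t • p ∈ T := by
      have c : Continuous fun t : ℝ => t • p := by fun_prop
      exact c.continuousAt.eventually_mem (by simpa using mem_interior_iff_mem_nhds.mp hp)
    obtain ⟨t, ⟨a1, a2, a3, a4⟩, ht⟩ := ((h1.filter_mono nhdsWithin_le_nhds).and
      (self_mem_nhdsWithin (s := Ioi (1 : ℝ)))).exists
    have ht' : 1 < t := ht
    simp only [PiLp.smul_apply, smul_eq_mul] at a1 a2 a3 a4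
    rcases h with h | h | h | h <;> nlinarith

noncomputable def Phi (x : ℝ × ℝ) : E := !₂[tri x.2, tri x.1, tri (x.1 + x.2)]

theorem Phi_cont : Continuous Phi := by
  have := tri_cont
  unfold Phi
  fun_prop

theorem tri_add {u v : ℝ} (u0 : 0 ≤ u) (u1 : u ≤ 1) (v0 : 0 ≤ v) (v1 : v ≤ 1) :
    tri (u + v) = 2 * |u + v - 1| - 1 ∧ tri (u - v) = 1 - 2 * |u - v| := by
  refine ⟨?_, tri_abs (abs_le.mpr ⟨by linarith, by linarith⟩)⟩
  rw [← sub_add_cancel (u + v) 1, tri_one, tri_abs (abs_le.mpr ⟨by linarith, by linarith⟩)]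
  simp

theorem Phi_mem (x : ℝ × ℝ) : Phi x ∈ S := by
  obtain ⟨u, k, u0, u1, hu⟩ := nform x.1
  obtain ⟨v, l, v0, v1, hv⟩ := nform x.2
  obtain ⟨a1, a2⟩ := tri_add u0 u1 v0 v1
  have e1 : tri x.1 = 1 - 2 * u := by
    rcases hu with e | e <;> simp only [e, tri_int, tri_neg, tri_eq u0 u1]
  have e2 : tri x.2 = 1 - 2 * v := by
    rcases hv with e | e <;> simp only [e, tri_int, tri_neg, tri_eq v0 v1]
  have e3 : tri (x.1 + x.2) = tri (u + v) ∨ tri (x.1 + x.2) = tri (u - v) := by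
    rcases hu with e | e <;> rcases hv with e' | e'
    · left; rw [← tri_int (u + v) (k + l), e, e']; congr 1; push_cast; ring
    · right; rw [← tri_int (u - v) (k + l), e, e']; congr 1; push_cast; ring
    · right; rw [← tri_neg (u - v), ← tri_int (-(u - v)) (k + l), e, e']; congr 1; push_cast; ring
    · left; rw [← tri_neg (u + v), ← tri_int (-(u + v)) (k + l), e, e']; congr 1; push_cast; ring
  simp only [S, T, Phi, mem_setOf_eq, Matrix.cons_val, e1, e2]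
  rcases e3 with e | e <;> rw [e]
  · rw [a1]
    rcases abs_cases (u + v - 1) with ⟨b, b'⟩ | ⟨b, b'⟩ <;> rw [b]
    · exact ⟨⟨by linarith, by linarith, by linarith, by linarith⟩, .inl (by linarith)⟩
    · exact ⟨⟨by linarith, by linarith, by linarith, by linarith⟩, .inr (.inr (.inr (by linarith)))⟩
  · rw [a2]
    rcases abs_cases (u - v) with ⟨b, b'⟩ | ⟨b, b'⟩ <;> rw [b]
    · exact ⟨⟨by linarith, by linarith, by linarith, by linarith⟩, .inr (.inr (.inl (by linarith)))⟩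
    · exact ⟨⟨by linarith, by linarith, by linarith, by linarith⟩, .inr (.inl (by linarith))⟩

theorem Phi_surj {p : E} (h : p ∈ S) : ∃ x ∈ Icc (-1 : ℝ) 1 ×ˢ Icc (-1 : ℝ) 1, Phi x = p := by
  obtain ⟨⟨p1, p2, p3, p4⟩, h⟩ := h
  obtain ⟨u, hu⟩ : ∃ u, p 1 = 1 - 2 * u := ⟨(1 - p 1) / 2, by ring⟩
  obtain ⟨v, hv⟩ : ∃ v, p 0 = 1 - 2 * v := ⟨(1 - p 0) / 2, by ring⟩
  have u0 : 0 ≤ u := by linarith
  have u1 : u ≤ 1 := by linarith
  have v0 : 0 ≤ v := by linarith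
  have v1 : v ≤ 1 := by linarith
  obtain ⟨a1, a2⟩ := tri_add u0 u1 v0 v1
  have c1 : p 2 = tri (u + v) → ∃ x ∈ Icc (-1 : ℝ) 1 ×ˢ Icc (-1 : ℝ) 1, Phi x = p := fun e =>
    ⟨(u, v), ⟨⟨by linarith, u1⟩, by linarith, v1⟩,
      ext3 ((tri_eq v0 v1).trans hv.symm) ((tri_eq u0 u1).trans hu.symm) e.symm⟩
  have c2 : p 2 = tri (u - v) → ∃ x ∈ Icc (-1 : ℝ) 1 ×ˢ Icc (-1 : ℝ) 1, Phi x = p := fun e =>
    ⟨(u, -v), ⟨⟨by linarith, u1⟩, by linarith, by linarith⟩,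
      ext3 (((tri_neg v).trans (tri_eq v0 v1)).trans hv.symm) ((tri_eq u0 u1).trans hu.symm)
        (by rw [e, sub_eq_add_neg]; rfl)⟩
  rcases h with h | h | h | h
  · exact c1 (by rw [a1, abs_of_nonneg (by linarith)]; linarith)
  · exact c2 (by rw [a2, abs_of_nonpos (by linarith)]; linarith)
  · exact c2 (by rw [a2, abs_of_nonneg (by linarith)]; linarith)
  · exact c1 (by rw [a1, abs_of_nonpos (by linarith)]; linarith)

def act (e : ℝ) (m : ℤ × ℤ) (y : ℝ × ℝ) : ℝ × ℝ := (e * y.1 + 2 * m.1, e * y.2 + 2 * m.2)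

theorem Phi_act {e : ℝ} (he : e = 1 ∨ e = -1) (m : ℤ × ℤ) (y : ℝ × ℝ) :
    Phi (act e m y) = Phi y := by
  have : e * y.1 + 2 * m.1 + (e * y.2 + 2 * m.2) = e * (y.1 + y.2) + 2 * (m.1 + m.2 : ℤ) := by
    push_cast; ring
  have t : ∀ a, tri (e * a) = tri a := fun a => by rcases he with rfl | rfl <;> simp [tri_neg]
  simp only [Phi, act, this, tri_int, t]

theorem Phi_fib {x y : ℝ × ℝ} (h : Phi y = Phi x) : ∃ e m, (e = 1 ∨ e = -1) ∧ x = act e m y := by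
  obtain ⟨k, hk⟩ := tri_inj (show tri y.1 = tri x.1 from congrArg (fun p : E => p 1) h)
  obtain ⟨l, hl⟩ := tri_inj (show tri y.2 = tri x.2 from congrArg (fun p : E => p 0) h)
  obtain ⟨n, hn⟩ := tri_inj (show tri (y.1 + y.2) = tri (x.1 + x.2) from
    congrArg (fun p : E => p 2) h)
  rcases hk with hk | hk <;> rcases hl with hl | hl
  · exact ⟨1, (k, l), .inl rfl, Prod.ext (by simp [act, hk]) (by simp [act, hl])⟩
  · rcases hn with hn | hn
    · exact ⟨1, (k, n - k), .inl rfl, Prod.ext (by simp [act, hk]) (by simp [act]; linarith)⟩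
    · exact ⟨-1, (n - l, l), .inr rfl, Prod.ext (by simp [act]; linarith) (by simp [act, hl])⟩
  · rcases hn with hn | hn
    · exact ⟨1, (n - l, l), .inl rfl, Prod.ext (by simp [act]; linarith) (by simp [act, hl])⟩
    · exact ⟨-1, (k, n - k), .inr rfl, Prod.ext (by simp [act, hk]) (by simp [act]; linarith)⟩
  · exact ⟨-1, (k, l), .inr rfl, Prod.ext (by simp [act, hk]) (by simp [act, hl])⟩

theorem Phi_open {x : ℝ × ℝ} {U : Set (ℝ × ℝ)} (hU : U ∈ 𝓝 x) :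
    ∀ᶠ q in 𝓝 (Phi x), q ∈ S → q ∈ Phi '' U := by
  obtain ⟨V, h1, h2, h3⟩ := mem_nhds_iff.mp hU
  let G : Set (ℝ × ℝ) := ⋃ (e : ℝ) (_ : e = 1 ∨ e = -1) (m : ℤ × ℤ), act e m ⁻¹' V
  have o : IsOpen G := isOpen_iUnion fun e => isOpen_iUnion fun _ => isOpen_iUnion fun m =>
    h2.preimage (by unfold act; fun_prop)
  have c := (((isCompact_Icc (a := (-1 : ℝ)) (b := 1)).prod
    (isCompact_Icc (a := (-1 : ℝ)) (b := 1))).diff o).image Phi_cont
  have n : Phi x ∉ Phi '' (Icc (-1 : ℝ) 1 ×ˢ Icc (-1 : ℝ) 1 \ G) := by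
    rintro ⟨y, ⟨-, hy⟩, e0⟩
    obtain ⟨e, m, he, rfl⟩ := Phi_fib e0
    exact hy (mem_iUnion.mpr ⟨e, mem_iUnion.mpr ⟨he, mem_iUnion.mpr ⟨m, h3⟩⟩⟩)
  filter_upwards [c.isClosed.isOpen_compl.mem_nhds n] with q hq hS
  obtain ⟨y, hy, rfl⟩ := Phi_surj hS
  have : y ∈ G := by
    by_contra h
    exact hq ⟨y, ⟨hy, h⟩, rfl⟩
  simp only [G, mem_iUnion] at this
  obtain ⟨e, he, m, hm⟩ := this
  exact ⟨_, h1 hm, Phi_act he m y⟩

end Pool.Agent.H.MP_c5a4a7_gt
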