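import Pool.Agent.H.MP_c5a4a7_gt.A

namespace Pool.Agent.H.MP_c5a4a7_gt

open Set Filter Topology Real MeasureTheory

def link (S : Set E) (p : E) : Set E := {d | ‖d‖ = 1 ∧ ∀ᶠ t in 𝓝[>] (0 : ℝ), p + t • d ∈ S}

def IsSCQ (S : Set E) (γ : ℝ → E) : Prop :=
  Continuous γ ∧ Function.Periodic γ 1 ∧ InjOn γ (Ico 0 1) ∧ (∀ t, γ t ∈ S) ∧
  ∀ t, ∃ (d₁ d₂ : E) (a b : ℝ), 0 < a ∧ 0 < b ∧ d₁ ∈ link S (γ t) ∧ d₂ ∈ link S (γ t) ∧
    HasDerivWithinAt γ (a • d₁) (Ici t) t ∧ HasDerivWithinAt γ (-(b • d₂)) (Iic t) t ∧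
    ∀ C ⊆ link S (γ t) \ {d₁, d₂}, IsPreconnected C → μH[1] C ≤ ENNReal.ofReal π

def N (w : ℝ × ℝ) : ℝ := 4 * (w.1 ^ 2 + w.2 ^ 2 + (w.1 + w.2) ^ 2)

theorem nsq (p : E) : ‖p‖ ^ 2 = p 0 ^ 2 + p 1 ^ 2 + p 2 ^ 2 := by
  simp [EuclideanSpace.real_norm_sq_eq, Fin.sum_univ_three]

structure Cone (x : ℝ × ℝ) (D : ℝ × ℝ → E) : Prop where
  ev : ∀ᶠ w in 𝓝 (0 : ℝ × ℝ), Phi (x + w) = Phi x + D w
  hom : ∀ t : ℝ, 0 ≤ t → ∀ w, D (t • w) = t • D w
  sq : ∀ w, ‖D w‖ ^ 2 = N w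
  lip : ∀ w w', ‖D w - D w'‖ ^ 2 ≤ N (w - w')
  inj : ¬IsInt x.1 → Function.Injective D
  even : IsInt x.1 → IsInt x.2 → ∀ w, D (-w) = D w

theorem cone (x : ℝ × ℝ) : ∃ D, Cone x D := by
  obtain ⟨τ1, h1⟩ := loc x.1
  obtain ⟨τ2, h2⟩ := loc x.2
  obtain ⟨τ3, h3⟩ := loc (x.1 + x.2)
  refine ⟨fun w => !₂[τ2 w.2, τ1 w.1, τ3 (w.1 + w.2)], ?_, fun t ht w => ?_, fun w => ?_,
    fun w w' => ?_, fun n w w' e => ?_, fun a b w => ?_⟩
  · have t3 : Tendsto (fun w : ℝ × ℝ => w.1 + w.2) (𝓝 0) (𝓝 0) :=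
      Continuous.tendsto' (by fun_prop) _ _ (by simp)
    filter_upwards [(continuous_fst.tendsto (0 : ℝ × ℝ)).eventually h1.ev,
      (continuous_snd.tendsto (0 : ℝ × ℝ)).eventually h2.ev, t3.eventually h3.ev] with w a b c
    refine ext3 b a ?_
    rw [add_add_add_comm] at c
    exact c
  · refine ext3 (h2.hom ht _) (h1.hom ht _) ?_
    have := h3.hom ht (w.1 + w.2)
    rw [mul_add] at this
    exact this
  · rw [nsq, N]
    simp only [Matrix.cons_val, h1.sq, h2.sq, h3.sq]; ring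
  · rw [nsq, N]
    simp only [PiLp.sub_apply, Matrix.cons_val, Prod.fst_sub, Prod.snd_sub]
    nlinarith [h1.lip w.1 w'.1, h2.lip w.2 w'.2, h3.lip (w.1 + w.2) (w'.1 + w'.2)]
  · have e1 := h1.inj n (congrArg (fun p : E => p 1) e)
    refine Prod.ext e1 ?_
    by_cases b : IsInt x.2
    · have := h3.inj (fun ⟨k, hk⟩ => by
        obtain ⟨l, hl⟩ := b
        exact n ⟨k - l, by push_cast; linarith⟩) (congrArg (fun p : E => p 2) e)
      linarith
    · exact h2.inj b (congrArg (fun p : E => p 0) e)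
  · refine ext3 (h2.even b _) (h1.even a _) ?_
    have := h3.even (by
      obtain ⟨k, hk⟩ := a
      obtain ⟨l, hl⟩ := b
      exact ⟨k + l, by push_cast; linarith⟩) (w.1 + w.2)
    rw [neg_add] at this
    exact this

theorem N_smul (t : ℝ) (w : ℝ × ℝ) : N (t • w) = t ^ 2 * N w := by
  simp only [N, Prod.smul_fst, Prod.smul_snd, smul_eq_mul]; ring

variable {x : ℝ × ℝ} {D : ℝ × ℝ → E}

theorem Cone.ray (h : Cone x D) (w : ℝ × ℝ) :
    ∀ᶠ t in 𝓝[>] (0 : ℝ), Phi (x + t • w) = Phi x + t • D w := by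
  have t1 : Tendsto (fun t : ℝ => t • w) (𝓝 0) (𝓝 0) :=
    Continuous.tendsto' (by fun_prop) _ _ (by simp)
  filter_upwards [(t1.eventually h.ev).filter_mono nhdsWithin_le_nhds, self_mem_nhdsWithin]
    with t a b
  rw [a, h.hom t (le_of_lt b)]

theorem Cone.mem (h : Cone x D) {w : ℝ × ℝ} (hw : N w = 1) : D w ∈ link S (Phi x) :=
  ⟨(pow_left_inj₀ (norm_nonneg _) zero_le_one two_ne_zero).mp (by rw [h.sq, hw, one_pow]),
    (h.ray w).mono fun t ht => ht ▸ Phi_mem _⟩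

theorem Cone.surj (h : Cone x D) {d : E} (hd : d ∈ link S (Phi x)) : ∃ w, N w = 1 ∧ D w = d := by
  have t0 : Tendsto (fun y : ℝ × ℝ => y - x) (𝓝 x) (𝓝 0) :=
    Continuous.tendsto' (by fun_prop) _ _ (by simp)
  have t1 : Tendsto (fun t : ℝ => Phi x + t • d) (𝓝 0) (𝓝 (Phi x)) :=
    Continuous.tendsto' (by fun_prop) _ _ (by simp)
  obtain ⟨t, ⟨a, b⟩, c⟩ := ((((t1.eventually (Phi_open (t0.eventually h.ev))).filter_mono
    nhdsWithin_le_nhds).and hd.2).and self_mem_nhdsWithin).exists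
  obtain ⟨y, y1, y2⟩ := a b
  have c' : (0 : ℝ) < t := c
  have y3 : Phi (x + (y - x)) = Phi x + D (y - x) := y1
  rw [add_sub_cancel, y2, add_right_inj] at y3
  have : D (t⁻¹ • (y - x)) = d := by
    rw [h.hom _ (by positivity), ← y3, smul_smul, inv_mul_cancel₀ c'.ne', one_smul]
  exact ⟨_, by rw [← h.sq, this, hd.1, one_pow], this⟩

noncomputable def arc (D : ℝ × ℝ → E) (w v : ℝ × ℝ) : Set E :=
  (fun θ => D (cos θ • w + sin θ • v)) '' Icc 0 π

theorem Cone.arc_le (h : Cone x D) {w v : ℝ × ℝ}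
    (hv : ∀ a b : ℝ, N (a • w + b • v) = a ^ 2 + b ^ 2) :
    IsClosed (arc D w v) ∧ μH[1] (arc D w v) ≤ ENNReal.ofReal π := by
  have l : LipschitzWith 1 fun θ => D (cos θ • w + sin θ • v) :=
    LipschitzWith.of_dist_le_mul fun a b => by
      rw [NNReal.coe_one, one_mul, dist_eq_norm, Real.dist_eq]
      refine (abs_le_of_sq_le_sq' ((h.lip _ _).trans ?_) (abs_nonneg _)).2
      have : cos a • w + sin a • v - (cos b • w + sin b • v) =
          (cos a - cos b) • w + (sin a - sin b) • v := by module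
      rw [this, hv, sq_abs]
      have := one_sub_sq_div_two_le_cos (x := a - b)
      rw [cos_sub] at this
      nlinarith [sin_sq_add_cos_sq a, sin_sq_add_cos_sq b]
  refine ⟨(isCompact_Icc.image l.continuous).isClosed, ?_⟩
  simpa [arc, hausdorffMeasure_real] using l.hausdorffMeasure_image_le zero_le_one (Icc 0 π)

theorem frame {w : ℝ × ℝ} (hw : N w = 1) : ∃ v : ℝ × ℝ,
    (∀ a b : ℝ, N (a • w + b • v) = a ^ 2 + b ^ 2) ∧ ∀ u : ℝ × ℝ, ∃ a b : ℝ, u = a • w + b • v := by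
  obtain ⟨s, hs⟩ : ∃ s : ℝ, s ^ 2 = 1 / 3 := ⟨√(1 / 3), sq_sqrt (by norm_num)⟩
  unfold N at *
  refine ⟨(s * (-w.1 - 2 * w.2), s * (2 * w.1 + w.2)), fun a b => ?_, fun u => ?_⟩
  · simp only [Prod.fst_add, Prod.snd_add, Prod.smul_fst, Prod.smul_snd, smul_eq_mul]
    linear_combination (a ^ 2 + b ^ 2) * hw +
      12 * b ^ 2 * (w.1 ^ 2 + w.2 ^ 2 + (w.1 + w.2) ^ 2) * hs
  · refine ⟨4 * (2 * w.1 * u.1 + w.1 * u.2 + w.2 * u.1 + 2 * w.2 * u.2),
      12 * s * (w.1 * u.2 - w.2 * u.1), Prod.ext ?_ ?_⟩ <;>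
      simp only [Prod.fst_add, Prod.snd_add, Prod.smul_fst, Prod.smul_snd, smul_eq_mul]
    · linear_combination -u.1 * hw + 12 * (w.1 * u.2 - w.2 * u.1) * (w.1 + 2 * w.2) * hs
    · linear_combination -u.2 * hw - 12 * (w.1 * u.2 - w.2 * u.1) * (2 * w.1 + w.2) * hs

theorem Cone.cover (h : Cone x D) {w v : ℝ × ℝ}
    (hv : ∀ a b : ℝ, N (a • w + b • v) = a ^ 2 + b ^ 2)
    (hs : ∀ u : ℝ × ℝ, ∃ a b : ℝ, u = a • w + b • v) :
    link S (Phi x) ⊆ arc D w v ∪ arc D w (-v) := by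
  intro d hd
  obtain ⟨u, h1, rfl⟩ := h.surj hd
  obtain ⟨a, b, rfl⟩ := hs u
  rw [hv] at h1
  have a1 := abs_le_of_sq_le_sq' (show a ^ 2 ≤ 1 ^ 2 by nlinarith) zero_le_one
  have c := cos_arccos a1.1 a1.2
  have s : sin (arccos a) = |b| := by
    rw [sin_arccos, show 1 - a ^ 2 = b ^ 2 by linarith, sqrt_sq_eq_abs]
  have m : arccos a ∈ Icc 0 π := ⟨arccos_nonneg a, arccos_le_pi a⟩
  rcases abs_choice b with e | e
  · exact .inl ⟨_, m, by simp only [c, s, e]⟩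
  · exact .inr ⟨_, m, by simp only [c, s, e, smul_neg, neg_smul, neg_neg]⟩

theorem Cone.vertex (h : Cone x D) (h1 : IsInt x.1) (h2 : IsInt x.2) :
    μH[1] (link S (Phi x)) ≤ ENNReal.ofReal π := by
  obtain ⟨s, hs⟩ : ∃ s : ℝ, s ^ 2 = 1 / 8 := ⟨√(1 / 8), sq_sqrt (by norm_num)⟩
  obtain ⟨v, v1, v2⟩ := frame (w := (s, 0)) (by simp only [N]; linarith)
  refine (measure_mono ((h.cover v1 v2).trans (union_subset subset_rfl ?_))).trans (h.arc_le v1).2
  rintro _ ⟨θ, hθ, rfl⟩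
  refine ⟨π - θ, ⟨by linarith [hθ.2], by linarith [hθ.1]⟩, ?_⟩
  simp only [cos_pi_sub, sin_pi_sub]
  rw [← h.even h1 h2]
  congr 1
  module

theorem Cone.sides (h : Cone x D) (h1 : ¬IsInt x.1) {w : ℝ × ℝ} (hw : N w = 1) :
    ∀ C ⊆ link S (Phi x) \ {D w, D (-w)}, IsPreconnected C → μH[1] C ≤ ENNReal.ofReal π := by
  intro C hC c
  obtain ⟨v, v1, v2⟩ := frame hw
  have v3 : ∀ a b : ℝ, N (a • w + b • -v) = a ^ 2 + b ^ 2 := fun a b => by
    rw [smul_neg, ← neg_smul, v1, neg_sq]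
  refine (isPreconnected_iff_subset_of_disjoint_closed.mp c _ _ (h.arc_le v1).1 (h.arc_le v3).1
    (fun d hd => h.cover v1 v2 (hC hd).1) ?_).elim
    (fun a => (measure_mono a).trans (h.arc_le v1).2)
    (fun a => (measure_mono a).trans (h.arc_le v3).2)
  · refine eq_empty_of_forall_notMem ?_
    rintro _ ⟨hd, ⟨a, ha, rfl⟩, b, hb, e⟩
    have e1 := v1 (cos b - cos a) (-sin b - sin a)
    have e2 : (cos b - cos a) • w + (-sin b - sin a) • v = 0 := by
      rw [← sub_eq_zero.mpr (h.inj h1 e)]; module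
    rw [e2] at e1
    have s0 : sin a = 0 := by
      have := sin_nonneg_of_mem_Icc ha
      have := sin_nonneg_of_mem_Icc hb
      simp only [N, Prod.fst_zero, Prod.snd_zero] at e1
      nlinarith [sq_nonneg (cos b - cos a)]
    apply (hC hd).2
    rcases sin_eq_zero_iff_cos_eq.mp s0 with e | e <;> simp [s0, e]

theorem Cone.unit (h : Cone x D) {w : ℝ × ℝ} (hw : 0 < N w) :
    N ((√(N w))⁻¹ • w) = 1 ∧ √(N w) • D ((√(N w))⁻¹ • w) = D w := by
  have := sqrt_pos.mpr hw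
  refine ⟨by rw [N_smul, inv_pow, sq_sqrt hw.le, inv_mul_cancel₀ hw.ne'], ?_⟩
  rw [h.hom _ (by positivity), smul_smul, mul_inv_cancel₀ this.ne', one_smul]

noncomputable def uu (t : ℝ) : ℝ := (1 - tri (2 * t)) / 2
noncomputable def ell (n : ℕ) (t : ℝ) : ℝ × ℝ := (uu t, (2 * n + 1) * uu t - 2 * t)
noncomputable def gam (n : ℕ) (t : ℝ) : E := Phi (ell n t)

theorem form (n : ℕ) (t : ℝ) : ∃ s, 0 ≤ s ∧ s ≤ 1 ∧
    (gam n t = Phi (s, 2 * n * s) ∨ gam n t = Phi (s, (2 * n + 2) * s)) := by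
  obtain ⟨s, k, h0, h1, e⟩ := nform (2 * t)
  have : uu t = s := by
    rcases e with e | e <;> simp only [uu, e, tri_int, tri_neg, tri_eq h0 h1] <;> ring
  refine ⟨s, h0, h1, e.imp (fun e => ?_) fun e => ?_⟩ <;>
    rw [← Phi_act (.inl rfl) (0, -k), gam, ell, this, e, act] <;> congr 2 <;> push_cast <;> ring

theorem gam_lo (n : ℕ) {t : ℝ} (h0 : 0 ≤ t) (h1 : t ≤ 1 / 2) :
    gam n t = Phi (2 * t, 2 * n * (2 * t)) := by
  rw [gam, ell, uu, tri_eq (by linarith) (by linarith)]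
  congr 2 <;> ring

theorem gam_hi (n : ℕ) {t : ℝ} (h0 : 1 / 2 ≤ t) (h1 : t ≤ 1) :
    gam n t = Phi (2 - 2 * t, (2 * n + 2) * (2 - 2 * t)) := by
  have : tri (2 * t) = tri (2 - 2 * t) := by
    rw [← tri_neg (2 - 2 * t), ← tri_int (-(2 - 2 * t)) 1]; congr 1; push_cast; ring
  rw [← Phi_act (.inl rfl) (0, -1), gam, ell, uu, this, tri_eq (by linarith) (by linarith), act]
  congr 2 <;> push_cast <;> ring

theorem Phi_fst {s s' a b : ℝ} (h0 : 0 ≤ s) (h1 : s ≤ 1) (h2 : 0 ≤ s') (h3 : s' ≤ 1)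
    (e : Phi (s, a) = Phi (s', b)) : s = s' := by
  have : tri s = tri s' := congrArg (fun p : E => p 1) e
  rw [tri_eq h0 h1, tri_eq h2 h3] at this
  linarith

theorem cross (n : ℕ) {s : ℝ} (h0 : 0 < s) (h1 : s < 1) :
    Phi (s, 2 * n * s) ≠ Phi (s, (2 * n + 2) * s) := by
  intro e
  obtain ⟨e, m, he, h⟩ := Phi_fib e
  simp only [act, Prod.mk.injEq] at h
  have : ∃ k : ℤ, s = k := by
    rcases he with rfl | rfl
    · exact ⟨m.2, by linarith [h.2]⟩
    · exact ⟨m.1, by linarith [h.1]⟩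
  obtain ⟨k, rfl⟩ := this
  have a : (0 : ℤ) < k := by exact_mod_cast h0
  have b : k < 1 := by exact_mod_cast h1
  omega

theorem gam_inj (n : ℕ) : InjOn (gam n) (Ico 0 1) := by
  have key : ∀ s t, 0 ≤ s → s ≤ 1 / 2 → 1 / 2 < t → t < 1 → gam n s ≠ gam n t := by
    intro s t a b c d e
    rw [gam_lo n a b, gam_hi n c.le d.le] at e
    have := Phi_fst (by linarith) (by linarith) (by linarith) (by linarith) e
    rw [this] at e
    exact cross n (by linarith) (by linarith) e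
  rintro s ⟨a, b⟩ t ⟨c, d⟩ e
  rcases le_or_gt s (1 / 2) with h | h <;> rcases le_or_gt t (1 / 2) with h' | h'
  · rw [gam_lo n a h, gam_lo n c h'] at e
    linarith [Phi_fst (by linarith) (by linarith) (by linarith) (by linarith) e]
  · exact absurd e (key s t a h h' d)
  · exact absurd e.symm (key t s c h' h b)
  · rw [gam_hi n h.le b.le, gam_hi n h'.le d.le] at e
    linarith [Phi_fst (by linarith) (by linarith) (by linarith) (by linarith) e]

theorem uu_int {t : ℝ} : IsInt (uu t) ↔ IsInt (2 * t) := by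
  obtain ⟨s, k, h0, h1, e⟩ := nform (2 * t)
  have : uu t = s := by
    rcases e with e | e <;> simp only [uu, e, tri_int, tri_neg, tri_eq h0 h1] <;> ring
  rw [this]
  constructor <;> rintro ⟨m, hm⟩ <;> rcases e with e | e
  · exact ⟨m + 2 * k, by push_cast; linarith⟩
  · exact ⟨-m + 2 * k, by push_cast; linarith⟩
  · exact ⟨m - 2 * k, by push_cast; linarith⟩
  · exact ⟨2 * k - m, by push_cast; linarith⟩

theorem der {γ : ℝ → E} {t : ℝ} {d : E} (h : ∀ᶠ s in 𝓝[>] (0 : ℝ), γ (t + s) = γ t + s • d) :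
    HasDerivWithinAt γ d (Ici t) t := by
  have h1 : HasDerivAt (fun s => γ t + (s - t) • d) d t := by
    simpa using (((hasDerivAt_id' t).sub_const t).smul_const d).const_add (γ t)
  refine h1.hasDerivWithinAt.congr_of_eventuallyEq ?_ (by simp) |>.Ici_of_Ioi
  have t1 : Tendsto (fun s => s - t) (𝓝[>] t) (𝓝[>] 0) :=
    tendsto_nhdsWithin_of_tendsto_nhds_of_eventually_within _
      ((Continuous.tendsto' (by fun_prop) _ _ (by simp)).mono_left nhdsWithin_le_nhds)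
      (eventually_nhdsWithin_of_forall fun s hs => mem_Ioi.mpr (sub_pos.mpr (mem_Ioi.mp hs)))
  filter_upwards [t1.eventually h] with s hs
  rwa [add_sub_cancel] at hs

theorem der' {γ : ℝ → E} {t : ℝ} {d : E} (h : ∀ᶠ s in 𝓝[>] (0 : ℝ), γ (t - s) = γ t + s • d) :
    HasDerivWithinAt γ (-d) (Iic t) t := by
  have h1 := der (γ := fun s => γ (-s)) (t := -t) (d := d) (by
    simpa only [neg_add, neg_neg, ← sub_eq_add_neg] using h)
  have h2 := h1.scomp t (h := fun s => -s) (s := Iic t) (hasDerivAt_neg t).hasDerivWithinAt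
    fun s hs => mem_Ici.mpr (neg_le_neg (mem_Iic.mp hs))
  simpa [Function.comp_def] using h2

theorem gam_scq (n : ℕ) : IsSCQ S (gam n) := by
  have c : Continuous (ell n) := by
    have := tri_cont
    unfold ell uu
    fun_prop
  refine ⟨Phi_cont.comp c, fun t => ?_, gam_inj n, fun t => Phi_mem _, fun t => ?_⟩
  · have : uu (t + 1) = uu t := by
      rw [uu, uu, ← tri_int (2 * t) 1]; congr 3; push_cast; ring
    rw [gam, gam, ← Phi_act (.inl rfl) (0, 1) (ell n (t + 1)), ell, ell, this, act]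
    congr 2 <;> push_cast <;> ring
  obtain ⟨D, hD⟩ := cone (ell n t)
  obtain ⟨τ, hτ⟩ := loc (2 * t)
  have ev : ∀ e : ℝ, ∀ᶠ s in 𝓝[>] (0 : ℝ), gam n (t + e * s) = gam n t +
      s • D (-τ (2 * e) / 2, (2 * n + 1) * (-τ (2 * e) / 2) - 2 * e) := fun e => by
    have t1 : Tendsto (fun s : ℝ => s * (2 * e)) (𝓝 0) (𝓝 0) :=
      Continuous.tendsto' (by fun_prop) _ _ (by simp)
    filter_upwards [(t1.eventually hτ.ev).filter_mono nhdsWithin_le_nhds,
      hD.ray (-τ (2 * e) / 2, (2 * n + 1) * (-τ (2 * e) / 2) - 2 * e), self_mem_nhdsWithin]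
      with s a b d
    rw [hτ.hom (le_of_lt d)] at a
    rw [gam, gam, ← b]
    have : uu (t + e * s) = uu t - s * τ (2 * e) / 2 := by
      rw [uu, uu, show 2 * (t + e * s) = 2 * t + s * (2 * e) by ring, a]; ring
    congr 1
    refine Prod.ext ?_ ?_ <;> simp [ell, this] <;> ring
  have pos : ∀ e : ℝ, e ^ 2 = 1 →
      0 < N (-τ (2 * e) / 2, (2 * n + 1) * (-τ (2 * e) / 2) - 2 * e) := fun e he => by
    have := hτ.sq (2 * e)
    have : 0 < (-τ (2 * e) / 2) ^ 2 := by nlinarith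
    unfold N
    positivity
  obtain ⟨a1, a2⟩ := hD.unit (pos 1 (by norm_num))
  obtain ⟨b1, b2⟩ := hD.unit (pos (-1) (by norm_num))
  refine ⟨_, _, _, _, sqrt_pos.mpr (pos 1 (by norm_num)), sqrt_pos.mpr (pos (-1) (by norm_num)),
    hD.mem a1, hD.mem b1, ?_, ?_, ?_⟩
  · rw [a2]; exact der (by simpa only [one_mul] using ev 1)
  · rw [b2]; exact der' (by simpa only [neg_one_mul, ← sub_eq_add_neg] using ev (-1))
  by_cases h : IsInt (2 * t)
  · refine fun C hC _ => (measure_mono fun d hd => (hC hd).1).trans (hD.vertex (uu_int.mpr h) ?_)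
    obtain ⟨k, hk⟩ := uu_int.mpr h
    obtain ⟨l, hl⟩ := h
    exact ⟨(2 * n + 1) * k - l, by simp only [ell, hk, hl]; push_cast; ring⟩
  · obtain ⟨c, -, ⟨-, e⟩ | ⟨b, -⟩⟩ := hτ.sh
    · have e1 : (-τ (2 * -1) / 2, (2 * n + 1) * (-τ (2 * -1) / 2) - 2 * -1) =
          -(-τ (2 * 1) / 2, (2 * (n : ℝ) + 1) * (-τ (2 * 1) / 2) - 2 * 1) := by
        refine Prod.ext ?_ ?_ <;> simp [e] <;> ring
      have e2 : ∀ w, N (-w) = N w := fun w => by simp only [N, Prod.fst_neg, Prod.snd_neg]; ring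
      rw [e1, e2, smul_neg]
      exact hD.sides (fun h' => h (uu_int.mp h')) a1
    · exact absurd b h

theorem gam_zero (n : ℕ) : gam n 0 = vv 0 := by
  rw [gam_lo n le_rfl (by norm_num)]
  refine ext3 ?_ ?_ ?_ <;> simp [Phi, vv, tri]

theorem many : {Γ | ∃ γ, IsSCQ S γ ∧ range γ = Γ ∧ ∃ t i, γ t = vv i}.Infinite := by
  refine infinite_of_injective_forall_mem (f := fun n : ℕ => range (gam n)) ?_
    fun n => ⟨_, gam_scq n, rfl, 0, 0, gam_zero n⟩
  refine Function.Injective.of_lt_imp_ne fun n m hnm e => ?_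
  obtain ⟨s, hs⟩ : ∃ s : ℝ, (2 * m + 2) * s = 1 := ⟨1 / (2 * m + 2), by field_simp⟩
  have m0 : (0 : ℝ) ≤ n := by positivity
  have m1 : (n : ℝ) + 1 ≤ m := by exact_mod_cast hnm
  have s0 : 0 < s := by nlinarith
  have s1 : s ≤ 1 := by nlinarith
  have h1 := gam_hi m (t := 1 - s / 2) (by linarith) (by linarith)
  rw [show 2 - 2 * (1 - s / 2) = s by ring, hs] at h1
  obtain ⟨t, ht⟩ : gam m (1 - s / 2) ∈ range (gam n) := e ▸ mem_range_self _
  obtain ⟨s', a, b, c⟩ := form n t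
  rw [ht, h1] at c
  rcases c with c | c
  all_goals
    obtain rfl := Phi_fst s0.le s1 a b c
    have : tri 1 = tri _ := congrArg (fun p : E => p 0) c
    rw [tri_eq zero_le_one le_rfl, tri_eq (by positivity) (by nlinarith)] at this
    nlinarith

theorem two : {i | ∃ t, gam 1 t = vv i} = {0, 1} ∧ ¬segment ℝ (vv 0) (vv 1) ⊆ range (gam 1) := by
  have t0 : tri 0 = 1 := by simp [tri]
  have t1 : tri 1 = -1 := by rw [tri_eq zero_le_one le_rfl]; norm_num
  have t2 : ∀ a, tri (a + 2) = tri a := fun a => by simpa using tri_int a 1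
  have t4 : ∀ a, tri (a + 4) = tri a := fun a => by
    rw [← t2 a, ← t2 (a + 2)]; congr 1; ring
  constructor
  · ext i
    constructor
    · rintro ⟨t, ht⟩
      obtain ⟨s, a, b, c⟩ := form 1 t
      rw [ht] at c
      have c1 : vv i 1 = 1 - 2 * s := by
        rcases c with c | c <;> rw [c, ← tri_eq a b] <;> rfl
      have c0 : vv i 0 = tri (2 * s) ∨ vv i 0 = tri (4 * s) := by
        refine c.imp (fun c => ?_) fun c => ?_ <;> rw [c] <;> norm_num [Phi]
      fin_cases i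
      · simp
      · simp
      · obtain rfl : s = 0 := by simp [vv] at c1; linarith
        norm_num [vv, t0] at c0
      · obtain rfl : s = 1 := by simp [vv] at c1; linarith
        have := t2 0
        have := t4 0
        norm_num [vv] at *
        rcases c0 with c0 | c0 <;> linarith
    · rintro (rfl | rfl)
      · exact ⟨0, gam_zero 1⟩
      · refine ⟨1 / 2, ?_⟩
        rw [gam_lo 1 (by norm_num) le_rfl]
        have a := t2 0
        have b := t2 1
        refine ext3 ?_ ?_ ?_ <;> simp only [Phi, vv, Matrix.cons_val] <;> norm_num at a b ⊢ <;>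
          linarith
  · intro h
    obtain ⟨t, ht⟩ := h ⟨3 / 4, 1 / 4, by norm_num, by norm_num, by norm_num, rfl⟩
    obtain ⟨s, a, b, c⟩ := form 1 t
    rw [ht] at c
    rcases c with c | c
    all_goals
      have c1 := congrArg (fun p : E => p 1) c
      have c0 := congrArg (fun p : E => p 0) c
      simp only [Phi, vv, PiLp.add_apply, PiLp.smul_apply, Matrix.cons_val, smul_eq_mul,
        tri_eq a b] at c0 c1
      obtain rfl : s = 1 / 4 := by linarith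
      rw [tri_eq (by norm_num) (by norm_num)] at c0
      norm_num at c0

end Pool.Agent.H.MP_c5a4a7_gt
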